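import Pool.Agent.H51.MFL.S
import Pool.Agent.H85.MFQ.COM
import Pool.Agent.H34.MFQ.POI

/-!
# Board mfl, row CHN: the Taylor coefficients of a local invariant form a chain
-/

set_option autoImplicit false

open Module MvPolynomial

namespace Pool.MFL

open Pool.MFQ Pool.MFM

namespace ChnAux

theorem eval_pd {κ : Type} [Fintype κ] [DecidableEq κ] (p : MvPolynomial κ ℂ) (t : κ → ℂ) (j : κ) :
    fderiv ℂ (fun t : κ → ℂ => eval t p) t (Pi.single j 1) = eval t (pderiv j p) := by
  rw [PoiN.fderiv_ev, Finset.sum_eq_single j]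
  · rw [Pi.single_eq_same, mul_one]
  · intro q _ hq
    rw [Pi.single_eq_of_ne hq, mul_zero]
  · intro h
    exact absurd (Finset.mem_univ j) h

end ChnAux

/-- CHN -/
theorem t_chn : CHNStmt := by
  intro κ _ c A a f Φ hA hf hΦ N
  classical
  -- the Taylor coefficients of the partial derivatives
  have hpd : ∀ (m : ℕ) (t : κ → ℂ) (j : κ), eval t (pderiv j (Φ (m + 1))) =
      COMaux.tau m (fun s => fderiv ℂ f (a + s • t) (Pi.single j 1)) := by
    intro m t j
    rw [← ChnAux.eval_pd]
    have h1 : (fun t : κ → ℂ => eval t (Φ (m + 1))) = tayE a f (m + 1) := by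
      funext x
      exact (hΦ (m + 1) (by omega) x).symm
    rw [h1, COMaux.fderiv_tayE hf.1]
    rfl
  have hlin : ∀ (x w : κ → ℂ),
      ∑ q, w q * fderiv ℂ f x (Pi.single q 1) = fderiv ℂ f x w := by
    intro x w
    have h1 : w = ∑ q, w q • (Pi.single q (1 : ℂ) : κ → ℂ) := by
      funext k
      simp [Finset.sum_apply, Pi.single_apply]
    conv_rhs => rw [h1]
    rw [map_sum]
    refine Finset.sum_congr rfl fun q _ => ?_
    rw [map_smul, smul_eq_mul]
  have key : ∀ (t : κ → ℂ) (z : κ), _ := fun t z => COMaux.rec_rel (A z a) (A z t)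
    (fun q s => fderiv ℂ f (a + s • t) (Pi.single q 1))
    (fun q => COMaux.anal_apply t (Pi.single q (1 : ℂ)) hf.1) (by
      have h1 : Filter.Tendsto (fun s : ℂ => a + s • t) (nhds 0) (nhds a) := by
        have : Continuous (fun s : ℂ => a + s • t) := by fun_prop
        simpa using this.tendsto 0
      filter_upwards [h1.eventually hf.2] with s hs
      have h2 := hs z
      rw [← hlin (a + s • t) (A z (a + s • t))] at h2
      rw [← h2]
      refine Finset.sum_congr rfl fun q _ => ?_
      rw [map_add, map_smul, Pi.add_apply, Pi.smul_apply, smul_eq_mul])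
  refine ⟨fun z => ?_, fun i hi _ z => ?_⟩
  · refine MvPolynomial.funext fun t => ?_
    rw [dF, map_sum, map_zero]
    have h1 := (key t z).1
    rw [← h1]
    refine Finset.sum_congr rfl fun j _ => ?_
    rw [map_mul, eval_C, hA]
    have h2 := hpd 0 t j
    rw [zero_add] at h2
    rw [h2]
  · obtain ⟨m, rfl⟩ : ∃ m, i = m + 1 := ⟨i - 1, by omega⟩
    refine MvPolynomial.funext fun t => ?_
    rw [map_add, dA, dF, map_sum, map_sum, map_zero]
    have h1 := (key t z).2 m
    rw [← h1, add_comm]
    congr 1
    · refine Finset.sum_congr rfl fun j _ => ?_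
      rw [map_mul, eval_C, hA, hpd]
    · refine Finset.sum_congr rfl fun j _ => ?_
      rw [map_mul, hA, hpd, map_sum]
      congr 1
      refine Finset.sum_congr rfl fun k _ => ?_
      rw [map_mul, eval_C, eval_X]

end Pool.MFL
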