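import Pool.Agent.H51.MFL.S
import Pool.Agent.H51.MFQ.All

/-!
# Board mfl, row GNA: generic points
-/

set_option autoImplicit false

open Module MvPolynomial

namespace Pool.MFL

open Pool.MFQ Pool.MFM

namespace GnaAux

theorem hom_iLR {σ τ : Type} [Fintype τ] {n : ℕ} (hn : 1 ≤ n) {P : LmR ℂ σ τ} (h : HomR n P) :
    (iLR P).IsHomogeneous n := by
  unfold iLR
  refine IsHomogeneous.add (h.1.rename_isHomogeneous) ?_
  refine IsHomogeneous.sum _ _ _ fun i _ => ?_
  have h1 : (rename (Sum.inl : σ → σ ⊕ τ) (P.2 i)).IsHomogeneous (n - 1) :=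
    (h.2 i).rename_isHomogeneous
  have h2 := h1.mul (isHomogeneous_X ℂ (Sum.inr i : σ ⊕ τ))
  rwa [Nat.sub_add_cancel hn] at h2

theorem comp_aeval {J κ : Type} (i : J → ℕ) (P : J → MvPolynomial κ ℂ)
    (hP : ∀ j, (P j).IsHomogeneous (i j)) (k : ℕ) (F : MvPolynomial J ℂ) :
    homogeneousComponent k (aeval P F) = aeval P (weightedHomogeneousComponent i k F) := by
  induction F using MvPolynomial.induction_on' with
  | monomial u a =>
    have h1 : (aeval P (monomial u a)).IsHomogeneous (Finsupp.weight i u) := by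
      rw [aeval_monomial, algebraMap_eq]
      have h2 : (u.prod fun j n => P j ^ n).IsHomogeneous (Finsupp.weight i u) := by
        rw [Finsupp.weight_apply]
        refine IsHomogeneous.prod _ _ _ fun j _ => ?_
        have h3 := (hP j).pow (u j)
        show (P j ^ u j).IsHomogeneous (u j • i j)
        rw [smul_eq_mul, mul_comm]
        exact h3
      simpa using (isHomogeneous_C κ a).mul h2
    have h2 : IsWeightedHomogeneous i (monomial u a) (Finsupp.weight i u) :=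
      isWeightedHomogeneous_monomial i u a rfl
    by_cases hk : Finsupp.weight i u = k
    · rw [hk] at h1 h2
      rw [homogeneousComponent_of_mem (n := k) ((mem_homogeneousSubmodule _ _).2 h1), if_pos rfl,
        h2.weightedHomogeneousComponent_same]
    · rw [homogeneousComponent_of_mem ((mem_homogeneousSubmodule _ _).2 h1),
        if_neg (fun h => hk h.symm), h2.weightedHomogeneousComponent_ne k (fun h => hk h.symm), map_zero]
  | add p q hp hq =>
    rw [map_add, map_add, hp, hq, map_add, map_add]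

end GnaAux

/-- GNA -/
theorem t_gna (h1 : CHNStmt) : GNAStmt := by
  intro L _ _ _ V s q b a hAb hC hb hGen f k hf hk
  obtain ⟨hcl, _, _⟩ := t_opc L (Fin s ⊕ Fin q) b
  obtain ⟨hst1, hst2, hst3, hst4⟩ := t_stb t_opc L V (Fin s) (Fin q) b hb
  have hgen := t_sem L V (Fin s ⊕ Fin q) b a hGen
  -- dimensions
  have hstab : ∀ t, Gen V (dualC b t) → finrank ℂ (stab (dualC b t)) =
      finrank ℂ (stab (dualC b a)) :=
    fun t ht => le_antisymm (ht.1 _) (hGen.1 _)
  have hinf : ∀ t, Gen V (dualC b t) →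
      finrank ℂ (stab (dualC b t) ⊓ V.toSubmodule : Submodule ℂ L) =
        finrank ℂ (stab (dualC b a) ⊓ V.toSubmodule : Submodule ℂ L) :=
    fun t ht => le_antisymm (ht.2 _) (hGen.2 _)
  have hsup : ∀ t, Gen V (dualC b t) →
      finrank ℂ (stab (dualC b t) ⊔ V.toSubmodule : Submodule ℂ L) =
        finrank ℂ (stab (dualC b a) ⊔ V.toSubmodule : Submodule ℂ L) := by
    intro t ht
    have h1 := Submodule.finrank_sup_add_finrank_inf_eq (stab (dualC b t)) V.toSubmodule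
    have h2 := Submodule.finrank_sup_add_finrank_inf_eq (stab (dualC b a)) V.toSubmodule
    have h3 := hstab t ht
    have h4 := hinf t ht
    omega
  set m : ℕ := finrank ℂ (NN (opA b) a) with hm
  set k' : ℕ := finrank ℂ (NN (opA b) a ⊓ TT (Fin s) (Fin q) :
    Submodule ℂ (Fin s ⊕ Fin q → ℂ)) with hk'
  have hNN : ∀ᶠ ξ in nhds a, finrank ℂ (NN (opA b) ξ) = m := by
    filter_upwards [hgen] with t ht
    have h1 := hst1 t
    have h2 := hst1 a
    have h3 := hstab t ht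
    omega
  have hNT : ∀ᶠ ξ in nhds a, finrank ℂ (NN (opA b) ξ ⊓ TT (Fin s) (Fin q) :
      Submodule ℂ (Fin s ⊕ Fin q → ℂ)) = k' := by
    filter_upwards [hgen] with t ht
    have h1 := hst2 t
    have h2 := hst2 a
    have h3 := hsup t ht
    omega
  have hE : finrank ℂ (Fin s ⊕ Fin q → ℂ) = finrank ℂ L := by
    rw [finrank_fintype_fun_eq_card, finrank_eq_card_basis b]
  have hrm : finrank ℂ (stab (dualC b a)) + m = finrank ℂ (Fin s ⊕ Fin q → ℂ) := by
    have h2 := hst1 a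
    omega
  obtain ⟨r, hr⟩ : ∃ r, finrank ℂ (stab (dualC b a)) = r := ⟨_, rfl⟩
  rw [hr] at hrm
  obtain ⟨F, hF1, hF2⟩ := t_sli t_LOC (t_slf t_exa) (Fin s ⊕ Fin q → ℂ) (Fin s ⊕ Fin q) (opA b) a m
    r hcl hNN hrm
  have hU : ∃ U ∈ nhds a, ∀ ξ ∈ U, ∀ ξ' ∈ U, ξ - ξ' ∈ TT (Fin s) (Fin q) →
      NN (opA b) ξ ⊓ TT (Fin s) (Fin q) = NN (opA b) ξ' ⊓ TT (Fin s) (Fin q) := by
    refine ⟨{t | Gen V (dualC b t)}, hgen, fun t ht t' ht' hd => ?_⟩
    exact hst3 t t' (hC _ _ ht ht' (H52A.agree b hb hd))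
  obtain ⟨G, hG1, hG2, hG3⟩ := t_tru (t_TRK t_LOC) (Fin s ⊕ Fin q → ℂ) (Fin s ⊕ Fin q) (opA b) a
    m k' r (TT (Fin s) (Fin q)) F hNN hrm hF1 hF2 hst4 hNT hU
  -- the Taylor coefficients
  have hP : ∀ (j : Fin r) (n : ℕ), ∃ P : LmR ℂ (Fin s) (Fin q), 1 ≤ n →
      HomR n P ∧ tayE a (G j) n = evT P := by
    intro j n
    by_cases hn : 1 ≤ n
    · obtain ⟨P, hP1, hP2⟩ := t_tpo t_tph (Fin s) (Fin q) a (G j) n hn (hG1 j).1 (hG3 j)
      exact ⟨P, fun _ => ⟨hP1, hP2⟩⟩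
    · exact ⟨0, fun h => absurd h hn⟩
  choose P hP using hP
  have hev : ∀ (j : Fin r) (n : ℕ), 1 ≤ n → ∀ t, tayE a (G j) n t = eval t (iLR (P j n)) := by
    intro j n hn t
    rw [(hP j n hn).2, PoiN.evT_pol]
    rfl
  have hop : ∀ z t j, opA b z t j = aC (stc b) t z j := by
    intro z t j
    simp [opA, aC, stc]
  -- the polynomial
  have hadj := t_tay t_car (Fin s ⊕ Fin q → ℂ) (Fin s ⊕ Fin q) (opA b) a m r G hNN hrm hG1 hG2
    k f hk hf
  have hset : {P : (Fin s ⊕ Fin q → ℂ) → ℂ | ∃ (j : Fin r) (i : ℕ), 1 ≤ i ∧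
      P = tayE a (G j) i} = Set.range fun x : Fin r × ℕ => tayE a (G x.1) (x.2 + 1) := by
    ext g
    constructor
    · rintro ⟨j, i, hi, rfl⟩
      refine ⟨(j, i - 1), ?_⟩
      show tayE a (G j) (i - 1 + 1) = _
      rw [Nat.sub_add_cancel hi]
    · rintro ⟨x, rfl⟩
      exact ⟨x.1, x.2 + 1, by omega, rfl⟩
  rw [hset, Algebra.adjoin_range_eq_range_aeval] at hadj
  obtain ⟨F₀, hF₀⟩ := hadj
  have hF₀' : ∀ t, tayE a f k t = eval t (aeval (fun x : Fin r × ℕ => iLR (P x.1 (x.2 + 1))) F₀) := by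
    intro t
    have h2 : (aeval fun x : Fin r × ℕ => tayE a (G x.1) (x.2 + 1)) F₀ = tayE a f k := hF₀
    rw [← h2]
    have h3 : ((Pi.evalAlgHom ℂ (fun _ : Fin s ⊕ Fin q → ℂ => ℂ) t).comp
        (aeval fun x : Fin r × ℕ => tayE a (G x.1) (x.2 + 1))) =
        ((aeval t : MvPolynomial (Fin s ⊕ Fin q) ℂ →ₐ[ℂ] ℂ).comp
          (aeval fun x : Fin r × ℕ => iLR (P x.1 (x.2 + 1)))) := by
      refine MvPolynomial.algHom_ext fun x => ?_
      simp only [AlgHom.comp_apply, aeval_X, Pi.evalAlgHom_apply]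
      rw [hev _ _ (by omega)]
      rfl
    exact DFunLike.congr_fun h3 F₀
  obtain ⟨p, hp1, hp2⟩ := t_tph (Fin s ⊕ Fin q) a f k hf.1
  have hpF : aeval (fun x : Fin r × ℕ => iLR (P x.1 (x.2 + 1))) F₀ = p := by
    refine MvPolynomial.funext fun t => ?_
    rw [← hF₀', hp2]
  refine ⟨Fin r × ℕ, fun x n => P x.1 n, fun x => x.2 + 1,
    weightedHomogeneousComponent (fun x : Fin r × ℕ => x.2 + 1) k F₀,
    fun j => Nat.succ_le_succ (Nat.zero_le _),
    fun j n hn => (hP j.1 n hn).1, fun j N => ?_, ?_, fun t => ?_⟩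
  · exact h1 (Fin s ⊕ Fin q) (stc b) (opA b) a (G j.1) _ hop (hG1 j.1)
      (fun n hn t => hev j.1 n hn t) N
  · exact weightedHomogeneousComponent_isWeightedHomogeneous k F₀
  · rw [← GnaAux.comp_aeval (fun x : Fin r × ℕ => x.2 + 1)
      (fun x : Fin r × ℕ => iLR (P x.1 (x.2 + 1)))
      (fun x => GnaAux.hom_iLR (Nat.succ_le_succ (Nat.zero_le _)) (hP x.1 (x.2 + 1)
        (Nat.succ_le_succ (Nat.zero_le _))).1), hpF, hp2,
      homogeneousComponent_of_mem ((mem_homogeneousSubmodule _ _).2 hp1), if_pos rfl]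

end Pool.MFL
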